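import Pool.Agent.helper50.NPT.Spec2

/-!
# Project NPT (MP_8f32d0_ag), row FPA: polar parts with functions regular outside two places
-/

set_option autoImplicit false

namespace NPT

open scoped Classical
open AN
open Pool.Agent.helper53.AU

noncomputable section

/-- a function regular outside `P`, `Q` with a pole of the given order at `P` -/
theorem FPA_pole (k F : Type) [Field k] [IsAlgClosed k] [Field F] [Algebra k F] (hF : IsFF k F)
    (P Q : Place k F) (hPQ : P ≠ Q) (n : ℕ) :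
    ∃ f ∈ (RegS {P, Q} : Set F), f ≠ 0 ∧ P.ord f = -(n : ℤ) := by
  have ht := P.unif_spec
  have hfin := aQV4 k F hF P.unif ht.1
  obtain ⟨S, hS⟩ : ∃ S : Finset (Place k F), ∀ P', P' ∈ S ↔ P'.ord P.unif ≠ 0 ∧ P' ≠ Q := by
    refine ⟨hfin.toFinset.filter (fun P' => P' ≠ Q), fun P' => ?_⟩
    rw [Finset.mem_filter, Set.Finite.mem_toFinset, Function.mem_support]
  obtain ⟨N, hN⟩ : ∃ N : ℕ, ∀ P' ∈ S, (P'.ord P.unif).natAbs ≤ N :=
    ⟨∑ P' ∈ S, (P'.ord P.unif).natAbs, fun P' hP' =>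
      Finset.single_le_sum (f := fun P' : Place k F => (P'.ord P.unif).natAbs) (fun _ _ => Nat.zero_le _) hP'⟩
  obtain ⟨c, hc, hc2⟩ := aQR4 k F hF Q S (n * N + 1) (fun P' => if P' = P then 1 else 0)
    (fun h => ((hS Q).1 h).2 rfl) (fun P' _ => by
      show P'.Ge 0 (if P' = P then 1 else 0)
      split_ifs
      · right
        rw [P'.ord_one]
      · exact P'.ge_zero 0)
  have hPS : P ∈ S := (hS P).2 ⟨by rw [ht.2]; exact one_ne_zero, hPQ⟩
  have h1 : P.Ge ((n * N + 1 : ℕ) : ℤ) (c - 1) := by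
    have := hc2 P hPS
    rwa [if_pos rfl] at this
  have h2 : (1 : F) + (c - 1) ≠ 0 ∧ P.ord (1 + (c - 1)) = P.ord (1 : F) := by
    refine Place.ord_add_eq one_ne_zero (h1.mono ?_)
    rw [P.ord_one]
    push_cast
    have : (0 : ℤ) ≤ n * N := by positivity
    omega
  rw [add_sub_cancel, P.ord_one] at h2
  have htn : P.unif ^ (-(n : ℤ)) ≠ 0 := zpow_ne_zero _ ht.1
  refine ⟨c * P.unif ^ (-(n : ℤ)), ?_, mul_ne_zero h2.1 htn, ?_⟩
  · intro P' hP'
    have hP1 : P' ≠ P := fun h => hP' (by rw [h]; exact Set.mem_insert _ _)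
    have hP2 : P' ≠ Q := fun h => hP' (by rw [h]; exact Set.mem_insert_of_mem _ rfl)
    have h3 : P'.Ge (-(n : ℤ) * P'.ord P.unif) (P.unif ^ (-(n : ℤ))) := by
      right
      rw [P'.ord_zpow ht.1]
    by_cases hS' : P' ∈ S
    · have h4 : P'.Ge ((n * N + 1 : ℕ) : ℤ) c := by
        have := hc2 P' hS'
        rwa [if_neg hP1, sub_zero] at this
      refine (h4.mul h3).mono ?_
      have h5 : P'.ord P.unif ≤ (N : ℤ) := by
        have := hN P' hS'
        omega
      have h6 : (n : ℤ) * P'.ord P.unif ≤ n * N := mul_le_mul_of_nonneg_left h5 (Int.natCast_nonneg n)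
      push_cast
      linarith
    · have h4 : P'.ord P.unif = 0 := by
        by_contra h
        exact hS' ((hS P').2 ⟨h, hP2⟩)
      rw [h4, mul_zero] at h3
      have h5 := (hc P' hP2).mul h3
      rwa [add_zero] at h5
  · rw [P.ord_mul c _ h2.1 htn, h2.2, P.ord_zpow ht.1, ht.2]
    ring

theorem FPA : FPA_stmt := by
  intro k F _ _ _ _ hF P Q hPQ ι hι X
  obtain ⟨N, hN⟩ := exists_lb_nat X
  induction N generalizing X with
  | zero =>
    refine ⟨0, fun P' _ => P'.ge_zero 0, X, ?_, by rw [map_zero, zero_add]⟩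
    intro n hn
    exact hN n (by simpa using hn)
  | succ N ih =>
    obtain ⟨f, hf, hf0, hfo⟩ := FPA_pole k F hF P Q hPQ (N + 1)
    have h1 := hι.mem f hf0
    have h2 := hι.ne f hf0
    rw [hfo] at h1 h2
    set d := cf (ι f) (-((N + 1 : ℕ) : ℤ)) with hd
    set c := cf X (-((N + 1 : ℕ) : ℤ)) with hc
    obtain ⟨f', hf', o, ho, hX⟩ := ih (X - LS.C (c / d) * ι f) (by
      intro n hn
      rw [cf_sub, cf_C_mul]
      rcases eq_or_ne n (-((N + 1 : ℕ) : ℤ)) with h | h
      · rw [h, ← hd, ← hc, div_mul_cancel₀ _ h2, sub_self]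
      · have h3 : n < -((N + 1 : ℕ) : ℤ) := by
          push_cast at h ⊢
          omega
        rw [hN n h3, mem_GE.1 h1 n h3, mul_zero, sub_zero])
    refine ⟨f' + algebraMap k F (c / d) * f, fun P' hP' => (hf' P' hP').add ((hf P' hP').const_mul (c / d)), o, ho, ?_⟩
    rw [map_add, map_mul, hι.const]
    rw [sub_eq_iff_eq_add] at hX
    rw [hX]
    ring

end

end NPT
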